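import Mathlib

/-!
# A balanced Butson matrix BH(4,16) which is not a generalised Hadamard matrix
(MP_56f6b7_co, MP_812af1_co)
-/

namespace Pool.Agent.V11300.BB

open Finset Matrix

/-- `H` is a Butson Hadamard matrix `BH(w, v)`: all entries are complex `w`-th roots of unity and
`H Hᴴ = v I`. -/
def IsBH (w v : ℕ) (H : Matrix (Fin v) (Fin v) ℂ) : Prop :=
  (∀ i j, H i j ^ w = 1) ∧ H * Hᴴ = (v : ℂ) • (1 : Matrix (Fin v) (Fin v) ℂ)

/-- Normalised: every entry of the first row and of the first column is `1`. -/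
def Normalised {v : ℕ} (H : Matrix (Fin v) (Fin v) ℂ) : Prop :=
  ∀ i j : Fin v, ((i : ℕ) = 0 ∨ (j : ℕ) = 0) → H i j = 1

open Classical in
/-- Row balanced: every row other than the first contains every `w`-th root of unity exactly
`v / w` times (written `w * count = v`). -/
def RowBalanced (w : ℕ) {v : ℕ} (H : Matrix (Fin v) (Fin v) ℂ) : Prop :=
  ∀ i : Fin v, (i : ℕ) ≠ 0 → ∀ z : ℂ, z ^ w = 1 →
    w * (univ.filter (fun j => H i j = z)).card = v

open Classical in
/-- Column balanced: every column other than the first contains every `w`-th root of unity exactly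
`v / w` times (written `w * count = v`). -/
def ColBalanced (w : ℕ) {v : ℕ} (H : Matrix (Fin v) (Fin v) ℂ) : Prop :=
  ∀ j : Fin v, (j : ℕ) ≠ 0 → ∀ z : ℂ, z ^ w = 1 →
    w * (univ.filter (fun i => H i j = z)).card = v

open Classical in
/-- `H` is a generalised Hadamard matrix `GH(w, v/w)` over the group of `w`-th roots of unity. -/
def IsGH (w v : ℕ) (H : Matrix (Fin v) (Fin v) ℂ) : Prop :=
  (∀ i j, H i j ^ w = 1) ∧ ∀ i k : Fin v, i ≠ k → ∀ h : ℂ, h ^ w = 1 →
    w * (univ.filter (fun j => H i j * (H k j)⁻¹ = h)).card = v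

/-- Equivalence of matrices with entries in `D_m = {z : z ^ m = 1}`: the second matrix is obtained
from the first one by a finite sequence of row permutations, column permutations, and
multiplications of one row or one column by an element of `D_m`. -/
inductive Eqv (m : ℕ) {n : ℕ} (H : Matrix (Fin n) (Fin n) ℂ) : Matrix (Fin n) (Fin n) ℂ → Prop
  | refl : Eqv m H H
  | permRows {K : Matrix (Fin n) (Fin n) ℂ} (σ : Equiv.Perm (Fin n)) :
      Eqv m H K → Eqv m H (fun i j => K (σ i) j)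
  | permCols {K : Matrix (Fin n) (Fin n) ℂ} (σ : Equiv.Perm (Fin n)) :
      Eqv m H K → Eqv m H (fun i j => K i (σ j))
  | mulRow {K : Matrix (Fin n) (Fin n) ℂ} (a : Fin n) (z : ℂ) (hz : z ^ m = 1) :
      Eqv m H K → Eqv m H (fun i j => if i = a then z * K i j else K i j)
  | mulCol {K : Matrix (Fin n) (Fin n) ℂ} (b : Fin n) (z : ℂ) (hz : z ^ m = 1) :
      Eqv m H K → Eqv m H (fun i j => if j = b then z * K i j else K i j)

/-- Multiplying all columns at once. -/
lemma Eqv.mulCols {m n : ℕ} {H K : Matrix (Fin n) (Fin n) ℂ} (h : Eqv m H K) (c : Fin n → ℂ)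
    (hc : ∀ j, c j ^ m = 1) : Eqv m H (fun i j => c j * K i j) := by
  classical
  have key : ∀ s : Finset (Fin n), Eqv m H (fun i j => if j ∈ s then c j * K i j else K i j) := by
    intro s
    induction s using Finset.induction_on with
    | empty => simpa using h
    | insert a s ha ih =>
      have := Eqv.mulCol (m := m) a (c a) (hc a) ih
      convert this using 1
      funext i j
      by_cases hj : j = a
      · subst hj; simp [ha]
      · simp [hj]
  simpa using key univ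

/-- The matrix of exponents. -/
def E : Fin 16 → Fin 16 → ℕ :=
  ![![0, 0, 0, 0, 0, 0, 0, 0, 0, 0, 0, 0, 0, 0, 0, 0],
    ![0, 0, 0, 0, 1, 1, 1, 1, 2, 2, 2, 2, 3, 3, 3, 3],
    ![0, 0, 3, 1, 3, 2, 0, 2, 1, 3, 0, 2, 1, 3, 2, 1],
    ![0, 0, 1, 2, 2, 3, 0, 0, 1, 2, 3, 3, 2, 1, 1, 3],
    ![0, 1, 1, 3, 2, 2, 0, 3, 3, 1, 0, 1, 0, 2, 3, 2],
    ![0, 3, 2, 0, 1, 0, 2, 3, 2, 2, 0, 3, 1, 1, 3, 1],
    ![0, 3, 3, 2, 0, 2, 1, 2, 3, 2, 1, 0, 0, 1, 1, 3],
    ![0, 2, 0, 2, 2, 0, 3, 1, 3, 1, 1, 3, 1, 3, 2, 0],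
    ![0, 2, 0, 3, 3, 1, 2, 0, 2, 3, 3, 1, 1, 0, 1, 2],
    ![0, 1, 3, 0, 3, 3, 3, 2, 2, 1, 2, 1, 2, 1, 0, 0],
    ![0, 2, 3, 3, 1, 2, 1, 1, 0, 0, 3, 3, 2, 2, 0, 1],
    ![0, 2, 1, 1, 0, 3, 3, 1, 1, 3, 2, 0, 0, 2, 3, 2],
    ![0, 3, 1, 2, 3, 1, 2, 3, 1, 0, 1, 2, 3, 2, 0, 0],
    ![0, 3, 2, 1, 2, 3, 1, 0, 3, 0, 2, 1, 3, 0, 2, 1],
    ![0, 1, 2, 1, 0, 1, 2, 3, 0, 1, 3, 0, 2, 3, 2, 3],
    ![0, 1, 2, 3, 1, 0, 3, 2, 0, 3, 1, 2, 3, 0, 1, 2]]

/-- The Butson matrix `BH(4, 16)`: `H i j = i ^ E i j`. -/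
noncomputable def H : Matrix (Fin 16) (Fin 16) ℂ := fun i j => Complex.I ^ E i j

/-- real part of `i ^ e` -/
def reZ (e : ℕ) : ℤ := if e % 4 = 0 then 1 else if e % 4 = 2 then -1 else 0

/-- imaginary part of `i ^ e` -/
def imZ (e : ℕ) : ℤ := if e % 4 = 1 then 1 else if e % 4 = 3 then -1 else 0

lemma I_pow_eq (e : ℕ) : Complex.I ^ e = (reZ e : ℂ) + (imZ e : ℂ) * Complex.I := by
  rw [Complex.I_pow_eq_pow_mod]
  unfold reZ imZ
  have h : e % 4 < 4 := Nat.mod_lt _ (by norm_num)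
  generalize e % 4 = r at h
  interval_cases r <;> norm_num [Complex.I_sq, pow_succ]

lemma sum_I_pow (f : Fin 16 → ℕ) :
    ∑ j, Complex.I ^ f j = ((∑ j, reZ (f j) : ℤ) : ℂ) + ((∑ j, imZ (f j) : ℤ) : ℂ) * Complex.I := by
  rw [Finset.sum_congr rfl (fun j _ => I_pow_eq (f j)), Finset.sum_add_distrib, ← Finset.sum_mul]
  push_cast
  rfl

lemma I_pow_inj (a b : ℕ) : Complex.I ^ a = Complex.I ^ b ↔ a % 4 = b % 4 := by
  constructor
  · intro h
    rw [I_pow_eq, I_pow_eq, Complex.ext_iff] at h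
    simp only [Complex.add_re, Complex.intCast_re, Complex.mul_re, Complex.I_re, mul_zero,
      Complex.intCast_im, Complex.I_im, mul_one, sub_self, add_zero, Int.cast_inj, Complex.add_im,
      Complex.mul_im, zero_add] at h
    obtain ⟨h1, h2⟩ := h
    unfold reZ at h1
    unfold imZ at h2
    have ha : a % 4 < 4 := Nat.mod_lt _ (by norm_num)
    have hb : b % 4 < 4 := Nat.mod_lt _ (by norm_num)
    generalize a % 4 = r at *
    generalize b % 4 = s at *
    interval_cases r <;> interval_cases s <;> simp_all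
  · intro h
    rw [Complex.I_pow_eq_pow_mod a, Complex.I_pow_eq_pow_mod b, h]

lemma exists_I_pow {z : ℂ} (h : z ^ 4 = 1) : ∃ k < 4, z = Complex.I ^ k := by
  have h1 : (z - 1) * (z + 1) * ((z - Complex.I) * (z + Complex.I)) = 0 := by
    have : Complex.I ^ 2 = -1 := Complex.I_sq
    linear_combination h - (z ^ 2 - 1) * this
  rcases mul_eq_zero.mp h1 with h2 | h2
  · rcases mul_eq_zero.mp h2 with h3 | h3
    · exact ⟨0, by norm_num, by rw [pow_zero]; linear_combination h3⟩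
    · exact ⟨2, by norm_num, by rw [Complex.I_sq]; linear_combination h3⟩
  · rcases mul_eq_zero.mp h2 with h3 | h3
    · exact ⟨1, by norm_num, by rw [pow_one]; linear_combination h3⟩
    · exact ⟨3, by norm_num, by
        rw [Complex.I_pow_three]; linear_combination h3⟩

lemma I_pow_four' (e : ℕ) : (Complex.I ^ e) ^ 4 = 1 := by
  rw [← pow_mul, mul_comm, pow_mul, Complex.I_pow_four, one_pow]

lemma star_I_pow (e : ℕ) : star (Complex.I ^ e) = Complex.I ^ (3 * e) := by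
  rw [pow_mul, Complex.I_pow_three]
  simp

lemma inv_I_pow (e : ℕ) : (Complex.I ^ e)⁻¹ = Complex.I ^ (3 * e) := by
  rw [pow_mul, Complex.I_pow_three, ← inv_pow, Complex.inv_I]

lemma re_check : ∀ i k : Fin 16, ∑ j, reZ (E i j + 3 * E k j) = if i = k then 16 else 0 := by
  decide +kernel

lemma im_check : ∀ i k : Fin 16, ∑ j, imZ (E i j + 3 * E k j) = 0 := by
  decide +kernel

lemma row_check : ∀ i : Fin 16, (i : ℕ) ≠ 0 → ∀ k < 4,
    (univ.filter (fun j => E i j % 4 = k % 4)).card = 4 := by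
  decide +kernel

lemma col_check : ∀ j : Fin 16, (j : ℕ) ≠ 0 → ∀ k < 4,
    (univ.filter (fun i => E i j % 4 = k % 4)).card = 4 := by
  decide +kernel

lemma norm_check : ∀ i j : Fin 16, ((i : ℕ) = 0 ∨ (j : ℕ) = 0) → E i j = 0 := by
  decide +kernel

theorem H_BH : IsBH 4 16 H := by
  refine ⟨fun i j => I_pow_four' _, ?_⟩
  ext i k
  rw [Matrix.mul_apply]
  have h1 : ∀ j, H i j * Hᴴ j k = Complex.I ^ (E i j + 3 * E k j) := by
    intro j
    rw [Matrix.conjTranspose_apply, pow_add]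
    unfold H
    rw [star_I_pow]
  rw [Finset.sum_congr rfl (fun j _ => h1 j), sum_I_pow, re_check, im_check]
  by_cases hik : i = k
  · subst hik; simp
  · simp [hik]

theorem H_norm : Normalised H := by
  intro i j h
  unfold H
  rw [norm_check i j h, pow_zero]

theorem H_row : RowBalanced 4 H := by
  intro i hi z hz
  obtain ⟨k, hk, rfl⟩ := exists_I_pow hz
  unfold H
  have := row_check i hi k hk
  simp only [I_pow_inj]
  convert congrArg (4 * ·) this using 1

theorem H_col : ColBalanced 4 H := by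
  intro i hi z hz
  obtain ⟨k, hk, rfl⟩ := exists_I_pow hz
  unfold H
  have := col_check i hi k hk
  simp only [I_pow_inj]
  convert congrArg (4 * ·) this using 1

/-- The number of `j` with `H 4 j * (H 1 j)⁻¹ = 1` is `2`. -/
theorem H_not_GH : ¬ IsGH 4 16 H := by
  classical
  intro h
  have h1 := h.2 4 1 (by decide) 1 (by norm_num)
  have h2 : ∀ j, (H 4 j * (H 1 j)⁻¹ = 1 ↔ (E 4 j + 3 * E 1 j) % 4 = 0 % 4) := by
    intro j
    unfold H
    rw [inv_I_pow, ← pow_add, ← pow_zero Complex.I, I_pow_inj]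
  simp only [h2] at h1
  have h3 : (univ.filter (fun j : Fin 16 => (E 4 j + 3 * E 1 j) % 4 = 0 % 4)).card = 2 := by
    decide +kernel
  have h4 : 4 * (univ.filter (fun j : Fin 16 => (E 4 j + 3 * E 1 j) % 4 = 0 % 4)).card = 16 := by
    convert h1 using 2
  rw [h3] at h4
  norm_num at h4

/-- The renormalisation of `H` at row `1`. -/
noncomputable def H' : Matrix (Fin 16) (Fin 16) ℂ :=
  fun i j => (Complex.I ^ (3 * E 1 j)) * H (Equiv.swap 0 1 i) j

theorem H'_eqv : Eqv 4 H H' := by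
  have h1 : Eqv 4 H (fun i j => H (Equiv.swap 0 1 i) j) := Eqv.permRows _ Eqv.refl
  exact h1.mulCols (fun j => Complex.I ^ (3 * E 1 j)) (fun j => I_pow_four' _)

lemma norm_check' : ∀ i j : Fin 16, ((i : ℕ) = 0 ∨ (j : ℕ) = 0) →
    (3 * E 1 j + E (Equiv.swap 0 1 i) j) % 4 = 0 % 4 := by
  decide +kernel

lemma H'_apply (i j : Fin 16) : H' i j = Complex.I ^ (3 * E 1 j + E (Equiv.swap 0 1 i) j) := by
  unfold H' H
  rw [pow_add]

theorem H'_norm : Normalised H' := by
  intro i j h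
  rw [H'_apply, ← pow_zero Complex.I, I_pow_inj]
  exact norm_check' i j h

theorem H'_not_row : ¬ RowBalanced 4 H' := by
  classical
  intro h
  have h1 := h 4 (by decide) 1 (by norm_num)
  have h2 : ∀ j, (H' 4 j = 1 ↔ (3 * E 1 j + E (Equiv.swap 0 1 4) j) % 4 = 0 % 4) := by
    intro j
    rw [H'_apply, ← pow_zero Complex.I, I_pow_inj]
  simp only [h2] at h1
  have h3 : (univ.filter (fun j : Fin 16 => (3 * E 1 j + E (Equiv.swap 0 1 4) j) % 4 = 0 % 4)).card
      = 2 := by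
    decide +kernel
  have h4 : 4 * (univ.filter (fun j : Fin 16 =>
      (3 * E 1 j + E (Equiv.swap 0 1 4) j) % 4 = 0 % 4)).card = 16 := by
    convert h1 using 2
  rw [h3] at h4
  norm_num at h4

lemma col_check' : ∀ j : Fin 16, (j : ℕ) ≠ 0 → ∀ k < 4,
    (univ.filter (fun i => (3 * E 1 j + E (Equiv.swap 0 1 i) j) % 4 = k % 4)).card = 4 := by
  decide +kernel

theorem H'_col : ColBalanced 4 H' := by
  intro i hi z hz
  obtain ⟨k, hk, rfl⟩ := exists_I_pow hz
  have := col_check' i hi k hk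
  simp only [H'_apply, I_pow_inj]
  convert congrArg (4 * ·) this using 1

lemma re_check' : ∀ i k : Fin 16, ∑ j, reZ ((3 * E 1 j + E (Equiv.swap 0 1 i) j) +
    3 * (3 * E 1 j + E (Equiv.swap 0 1 k) j)) = if i = k then 16 else 0 := by
  decide +kernel

lemma im_check' : ∀ i k : Fin 16, ∑ j, imZ ((3 * E 1 j + E (Equiv.swap 0 1 i) j) +
    3 * (3 * E 1 j + E (Equiv.swap 0 1 k) j)) = 0 := by
  decide +kernel

theorem H'_BH : IsBH 4 16 H' := by
  refine ⟨fun i j => by rw [H'_apply]; exact I_pow_four' _, ?_⟩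
  ext i k
  rw [Matrix.mul_apply]
  have h1 : ∀ j, H' i j * H'ᴴ j k = Complex.I ^ ((3 * E 1 j + E (Equiv.swap 0 1 i) j) +
      3 * (3 * E 1 j + E (Equiv.swap 0 1 k) j)) := by
    intro j
    rw [Matrix.conjTranspose_apply, pow_add _ (3 * E 1 j + E (Equiv.swap 0 1 i) j), H'_apply,
      H'_apply, star_I_pow]
  rw [Finset.sum_congr rfl (fun j _ => h1 j), sum_I_pow, re_check', im_check']
  by_cases hik : i = k
  · subst hik; simp
  · simp [hik]

end Pool.Agent.V11300.BB
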